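import Pool.Agent.BcfFin.Exact

/-!
Entire functions whose derivatives have the same zeros up to finitely many exceptions.
-/

set_option autoImplicit false

namespace Pool.Agent.Retired.MP_bcf514_an.FinitelyManyExceptions

/-- The set of points at which `u` and `v` do not have the same order of vanishing. -/
def Exc (u v : ℂ → ℂ) : Set ℂ := {z | analyticOrderAt u z ≠ analyticOrderAt v z}

/-- The three families of pairs. -/
def Fam (f g : ℂ → ℂ) : Prop :=
  (∃ c : ℂ, ∀ z, f z = c * g z) ∨
  (∃ P p Q q : Polynomial ℂ, ∀ z, f z = P.eval z * Complex.exp (p.eval z) ∧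
    g z = Q.eval z * Complex.exp (q.eval z)) ∨
  (∃ A B : ℂ, ∃ p : Polynomial ℂ, ∀ z, f z = A * (Complex.exp (p.eval z) - 1) ∧
    g z = B * (Complex.exp (-p.eval z) - 1))

/-- Let `f`, `g` be entire, with derivatives of order at most `14` not identically zero.
Then the following are equivalent: the derivatives of order `n` of `f` and `g` have the same zeros
with multiplicities up to finitely many, for all `n ≤ 14`; the functions `f^(n+1) g^(n)` and
`f^(n) g^(n+1)` have the same zeros with multiplicities up to finitely many, for all `n ≤ 13`;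
the pair belongs to one of the three families. If there are no exceptions at all, then the ratio is
constant or the pair is one of the two exceptional pairs of the problem. -/
theorem result (f g : ℂ → ℂ) (hf : Differentiable ℂ f) (hg : Differentiable ℂ g)
    (hf0 : ∀ n ≤ 14, ∃ z, iteratedDeriv n f z ≠ 0)
    (hg0 : ∀ n ≤ 14, ∃ z, iteratedDeriv n g z ≠ 0) :
    ((∀ n ≤ 14, (Exc (iteratedDeriv n f) (iteratedDeriv n g)).Finite) ↔ Fam f g) ∧
    ((∀ n ≤ 13, (Exc (fun z => iteratedDeriv (n+1) f z * iteratedDeriv n g z)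
      (fun z => iteratedDeriv n f z * iteratedDeriv (n+1) g z)).Finite) ↔ Fam f g) ∧
    ((∀ n ≤ 14, Exc (iteratedDeriv n f) (iteratedDeriv n g) = ∅) →
      (∃ c : ℂ, ∀ z, f z = c * g z) ∨
      (∃ a b c d : ℂ, ∀ z, f z = Complex.exp (a * z + b) ∧ g z = Complex.exp (c * z + d)) ∨
      (∃ a b A B : ℂ, b ≠ 0 ∧ ∀ z, f z = A * (Complex.exp (a * z) - b) ∧
        g z = B * (Complex.exp (-(a * z)) - b⁻¹))) := by
  have h1 : (∀ n ≤ 13, (Exc (fun z => iteratedDeriv (n+1) f z * iteratedDeriv n g z)
      (fun z => iteratedDeriv n f z * iteratedDeriv (n+1) g z)).Finite) → Fam f g :=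
    fun h => BcfFin.fam_of_weak hf hg hf0 hg0 h
  have h2 : (∀ n ≤ 14, (Exc (iteratedDeriv n f) (iteratedDeriv n g)).Finite) →
      (∀ n ≤ 13, (Exc (fun z => iteratedDeriv (n+1) f z * iteratedDeriv n g z)
      (fun z => iteratedDeriv n f z * iteratedDeriv (n+1) g z)).Finite) :=
    fun h n hn => BcfFin.weak_of_strong hf hg (h n (by omega)) (h (n+1) (by omega))
  have h3 : Fam f g → (∀ n ≤ 14, (Exc (iteratedDeriv n f) (iteratedDeriv n g)).Finite) :=
    fun h n hn => BcfFin.strong_of_fam hf hg h n (fun m hm => hf0 m (by omega))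
      (fun m hm => hg0 m (by omega))
  refine ⟨⟨fun h => h1 (h2 h), h3⟩, ⟨h1, fun h => h2 (h3 h)⟩, fun h => ?_⟩
  refine BcfFin.exact_of_fam hf hg (fun n hn => hf0 n (by omega)) (fun n hn => hg0 n (by omega))
    (fun n hn z => ?_) (h1 (h2 (fun n hn => by rw [h n hn]; exact Set.finite_empty)))
  by_contra hcon
  have h4 : z ∈ Exc (iteratedDeriv n f) (iteratedDeriv n g) := hcon
  rw [h n (by omega)] at h4
  exact h4

end Pool.Agent.Retired.MP_bcf514_an.FinitelyManyExceptions
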